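import Pool.Agent.Q57.DS.Defs

/-!
# Hodge classes and de Rham-Betti classes: definitions
-/

open CategoryTheory AlgebraicGeometry

universe u

namespace Pool.Agent.Q57.DS

open Pool.Agent.H914 Pool.Agent.H914.VarClass Pool.Agent.H914.WeilCohomology
open Pool.Agent.Y121.AHS

variable {k : Type u} [Field k] {𝒱 : VarClass k} {ops : CycleOps 𝒱} {T : HodgeTheory ops}
  {F : Subfield ℂ}

/-- The class `c` is a Hodge class and a de Rham-Betti class. -/
def IsHD (D : DRStr T F) : Cls T.W := fun X j c => IsHodge T X j c ∧ IsDRB D X j c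

/-- All Hodge classes on `Y` are de Rham-Betti classes. -/
def HodgeAreDRB (D : DRStr T F) (Y : 𝒱.Obj) : Prop := ∀ j c, IsHodge T Y j c → IsDRB D Y j c

/-- All de Rham-Betti classes on `Y` are Hodge classes. -/
def DRBAreHodge (D : DRStr T F) (Y : 𝒱.Obj) : Prop := ∀ j c, IsDRB D Y j c → IsHodge T Y j c

/-- The classes on `Y` with the property `P` are algebraic. -/
def AreAlg {W : WeilCohomology.{u, 0} ops} (P : Cls W) (Y : 𝒱.Obj) : Prop :=
  ∀ j c, P Y j c → IsAlg W Y j c

end Pool.Agent.Q57.DS
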