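import Pool.Agent.Q57.DS.Fin
import Pool.Agent.Q57.DS.Defs2

/-!
# The results on Hodge classes which are de Rham-Betti classes
-/

open CategoryTheory AlgebraicGeometry

open scoped TensorProduct

universe u

namespace Pool.Agent.Q57.DS

open Pool.Agent.H914 Pool.Agent.H914.VarClass Pool.Agent.H914.VarClass.Obj
  Pool.Agent.H914.WeilCohomology
open Pool.Agent.Y121.AHS
open Pool.Agent.Y133.Half (pw cycRank dimBy HasIndex GeneratedOver)
open Pool.Agent.Q60.HDS (PolHodgeTheory totalBetti power)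

variable {k : Type u} [Field k] {𝒱 : VarClass k} {ops : CycleOps 𝒱}

section

variable {T : HodgeTheory ops} {F : Subfield ℂ} (D : DRStr T F) (X : 𝒱.Obj)

lemma hd_eq : IsHD D = Pool.Agent.Q57.DR.IsHD T (toGr D).toDeRham := hd_fun D

theorem p_tower [Nontrivial (T.W.H X)] :
    ∃ M N N' : ℕ∞, 1 ≤ M ∧ 1 ≤ N ∧ 1 ≤ N' ∧
      Index (fun n => dimP (IsHD D) (pw X n)) (fun n => cycRk ops (pw X n)) M ∧
      Index (fun n => dimP (IsDRB D) (pw X n)) (fun n => dimP (IsHD D) (pw X n)) N ∧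
      Index (fun n => dimP (IsHodge T) (pw X n)) (fun n => dimP (IsHD D) (pw X n)) N' ∧
      Index (fun n => dimP (IsDRB D) (pw X n)) (fun n => cycRk ops (pw X n)) (N * M) ∧
      Index (fun n => dimP (IsHodge T) (pw X n)) (fun n => cycRk ops (pw X n)) (N' * M) ∧
      (M = 1 ↔ ∀ n, AreAlg (IsHD D) (pw X n)) ∧
      (N = 1 ↔ ∀ n, DRBAreHodge D (pw X n)) ∧
      (N' = 1 ↔ ∀ n, HodgeAreDRB D (pw X n)) ∧
      (M = 1 ∧ N = 1 ↔ ∀ n, AreAlg (IsDRB D) (pw X n)) ∧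
      (N ≠ ⊤ → GeneratedP (IsHD D) (IsDRB D) X N) ∧
      (N' ≠ ⊤ → GeneratedP (IsHD D) (IsHodge T) X N') := by
  unfold AreAlg DRBAreHodge HodgeAreDRB
  simp only [hd_eq, drb_fun, isAlg_iff, generated_iff]
  obtain ⟨M, N, N', h1, h2, h3, h4, h5, h6, h7, h8, h9, h10, h11, h12, h13⟩ :=
    Pool.Agent.Q57.DR.g_tower T (toGr D) X
  refine ⟨M, N, N', h1, h2, h3, h4, h5, h6, h7, h8, h9, h10, h11, ?_, h12, h13⟩
  rw [h9, h10]
  exact (Pool.Agent.Q57.DR.g_gpc T (toGr D) X).symm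

theorem p_half [Nontrivial (T.W.H X)] {N m : ℕ} (hN : 8 ≤ N) (hN2 : N % 2 = 0) (hm : m < N)
    (hc : ¬ DRBAreHodge D (pw X m)) {ε : ℝ} (hε : 0 < ε) {n : ℕ}
    (hn : (2 * (Module.finrank T.W.K (T.W.H X) : ℝ)) ^ (3 * N) / ε ^ 2 ≤ n + 1) :
    (dimP (IsHD D) (pw X n) : ℝ) ≤ (1 / 2 + ε) * dimP (IsDRB D) (pw X n) := by
  unfold DRBAreHodge at hc
  push Not at hc
  obtain ⟨j, c, hc, hc'⟩ := hc
  rw [drb_fun] at hc ⊢
  rw [hd_eq]
  exact Pool.Agent.Q57.DR.g_half T (toGr D) X hN hN2 hm hc hc' hε hn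

end

variable {T : PolHodgeTheory ops} {F : Subfield ℂ} (D : DRStr T.toHodgeTheory F) (X : 𝒱.Obj)

lemma all_iff (Y : 𝒱.Obj) : HodgeAreDRB D Y ↔
    Pool.Agent.Q57.DR.AllHodgeDRB T.toHodgeTheory (toGr D).toDeRham Y := by
  unfold HodgeAreDRB Pool.Agent.Q57.DR.AllHodgeDRB
  rw [drb_fun]

theorem p_determination (h : HodgeAreDRB D
    (power X ((2 * totalBetti T.toHodgeTheory X) ^ (3 * totalBetti T.toHodgeTheory X ^ 2))))
    (n : ℕ) : HodgeAreDRB D (power X n) :=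
  (all_iff D _).2 (Pool.Agent.Q57.DR.g_determination T (toGr D) ((all_iff D _).1 h) n)

theorem p_hodge_half {ε : ℝ} (hε : 0 < ε) {n : ℕ}
    (hn : (2 * (totalBetti T.toHodgeTheory X : ℝ)) ^ (3 * (2 * totalBetti T.toHodgeTheory X) ^
      (3 * totalBetti T.toHodgeTheory X ^ 2)) / ε ^ 2 ≤ n)
    (h : (1 / 2 + ε) * dimP (IsHodge T.toHodgeTheory) (power X n) < dimP (IsHD D) (power X n))
    (m : ℕ) : HodgeAreDRB D (power X m) := by
  rw [hd_eq] at h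
  exact (all_iff D _).2 (Pool.Agent.Q57.DR.g_hodge_half T (toGr D) hε hn h m)

end Pool.Agent.Q57.DS
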