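import Pool.Agent.Q50.MO.CDefs

/-!
# De Rham structures on a Hodge theory: definitions

In the intended use `k` is a field of algebraic numbers, embedded in `ℂ`, `T` is the cohomology of
the complex manifolds with rational coefficients, `F` is the image of `k` in `ℂ`, and `dR X` is the
algebraic de Rham cohomology of `X` over `k`, as a subset of the cohomology with complex
coefficients.
-/

open CategoryTheory AlgebraicGeometry

universe u

namespace Pool.Agent.Q57.DS

/-- The number `2 π i`. -/
noncomputable def per : ℂ := 2 * Real.pi * Complex.I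

section Alg

open Pool.Agent.Y121.AHS

variable {K A B C : Type} [Field K] [Ring A] [Algebra K A] [Ring B] [Algebra K B]
  [Ring C] [Algebra K C]

/-- The element `c` is of degree `i`. -/
def OfDeg (gr : ℕ → Submodule K A) (i : ℕ) (c : A) : Prop := c ∈ gr i

/-- The dimension of the space spanned by `S`. -/
noncomputable def rk (K : Type) [Field K] [Algebra K A] (S : Set A) : ℕ := Set.finrank K S

/-- The element `c` is a linear combination of elements of `S`. -/
def InSpan (K : Type) [Field K] [Algebra K A] (S : Set A) (c : A) : Prop :=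
  c ∈ Submodule.span K S

/-- The images of `a` under the operators `a ↦ s (z · p a)` given by the elements `z` of `S`. -/
def images (p : A →ₐ[K] C) (s : C →ₗ[K] B) (S : Set C) (a : A) : Set B :=
  {x | ∃ z ∈ S, Pool.Agent.H914.corrOp p s z a = x}

variable [Algebra K ℂ]

/-- The formal properties of the algebraic de Rham cohomology `S` of a variety of dimension `d`
with the orientation `t` over the field `F`: a subspace over `F` of the cohomology with complex
coefficients, which spans it over `ℂ`, is stable under products, is the sum of its parts in the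
degrees `0`, …, `2 d`, and on which the values of the orientation lie in `(2 π i) ^ d F`. -/
structure IsDR (F : Subfield ℂ) (gr : ℕ → Submodule K A) (d : ℕ) (t : A →ₗ[K] K)
    (S : Set (Ext K ℂ A)) : Prop where
  zero : 0 ∈ S
  add : ∀ a ∈ S, ∀ b ∈ S, a + b ∈ S
  smul : ∀ r ∈ F, ∀ a ∈ S, extSm K ℂ r a ∈ S
  mul : ∀ a ∈ S, ∀ b ∈ S, extMul K ℂ a b ∈ S
  span : Submodule.span ℂ S = ⊤
  tr : ∀ a ∈ S, ∃ r ∈ F, extForm K ℂ t a = per ^ d * r
  graded : ∀ a ∈ S, ∃ f : ℕ → Ext K ℂ A, (∀ i, f i ∈ S ∧ f i ∈ extSub K ℂ (gr i)) ∧
    a = ∑ i ∈ Finset.range (2 * d + 1), f i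

/-- The element `(2 π i) ^ j c` lies in `S`. -/
def InTw (S : Set (Ext K ℂ A)) (j : ℕ) (c : A) : Prop := extTw K ℂ per j (extEm K ℂ c) ∈ S

end Alg

/-- The dimension of the space spanned by the functions `f x`. -/
noncomputable def rkFun {α β : Type*} (f : α → β → ℚ) : ℕ :=
  Module.finrank ℚ (Submodule.span ℚ (Set.range f))

/-- The quotients `t n / s n` converge to `N`, an element of `ℕ ∪ {∞}`. -/
def Index (t s : ℕ → ℕ) (N : ℕ∞) : Prop :=
  Filter.Tendsto (fun n => (t n : ENNReal) / s n) Filter.atTop (nhds (N : ENNReal))

open Pool.Agent.H914 Pool.Agent.H914.VarClass Pool.Agent.H914.VarClass.Obj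
  Pool.Agent.H914.WeilCohomology
open Pool.Agent.Y121.AHS
open Pool.Agent.Y133.Half (pw)

variable {k : Type u} [Field k] {𝒱 : VarClass k} {ops : CycleOps 𝒱}

/-- A de Rham structure on the Hodge theory `T`, over the subfield `F` of `ℂ` (which contains the
coefficients of the cohomology): for each variety `X` a subset `dR X` of the cohomology with complex
coefficients with the formal properties of de Rham cohomology, which contains the classes
`(2 π i) ^ j cl(z)` of the cycles `z` of codimension `j`, and is stable under pull-backs. -/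
structure DRStr (T : HodgeTheory ops) (F : Subfield ℂ) where
  /-- the de Rham cohomology -/
  dR : ∀ X : 𝒱.Obj, Set (HL T.W ℂ X)
  form : ∀ X, IsDR F (T.W.gr X) X.dim (T.W.tr X) (dR X)
  scal : ∀ r : T.W.K, algebraMap T.W.K ℂ r ∈ F
  cyc : ∀ X j z, X.IsCyc j z → InTw (dR X) j (T.W.cl X z)
  map : ∀ (X Y : 𝒱.Obj) (f : X ⟶ Y), ∀ a ∈ dR Y, mapL f a ∈ dR X

/-- The de Rham-Betti classes of codimension `j`: the classes `c` in `H^(2 j)(X)` such that
`(2 π i) ^ j c` lies in the de Rham cohomology. -/
def IsDRB {T : HodgeTheory ops} {F : Subfield ℂ} (D : DRStr T F) (X : 𝒱.Obj) (j : ℕ)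
    (c : T.W.H X) : Prop :=
  OfDeg (T.W.gr X) (2 * j) c ∧ InTw (D.dR X) j c

/-- Properties of classes of codimension `j` on `X`. -/
abbrev Cls (W : WeilCohomology.{u, 0} ops) := ∀ X : 𝒱.Obj, ℕ → W.H X → Prop

variable {W : WeilCohomology.{u, 0} ops}

/-- The set of the classes with the property `P` of all codimensions. -/
def setP (P : Cls W) (X : 𝒱.Obj) : Set (W.H X) := {c | ∃ j, P X j c}

/-- The dimension of the space spanned by the classes with the property `P`. -/
noncomputable def dimP (P : Cls W) (X : 𝒱.Obj) : ℕ := rk W.K (setP P X)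

/-- The class `c` is a linear combination of classes of algebraic cycles of codimension `j`. -/
def IsAlg (W : WeilCohomology.{u, 0} ops) (X : 𝒱.Obj) (j : ℕ) (c : W.H X) : Prop :=
  InSpan W.K {x | ∃ z, X.IsCyc j z ∧ W.cl X z = x} c

/-- The dimension of the space of the cycles of codimension `j` on `X` with rational coefficients
modulo numerical equivalence. -/
noncomputable def numRk (ops : CycleOps 𝒱) (X : 𝒱.Obj) (j : ℕ) : ℕ :=
  rkFun fun (z : {z : X.Cycles // X.IsCyc j z}) (w : {w : X.Cycles // X.IsCyc (X.dim - j) w}) =>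
    X.V.degCycle (ops.mul z.1 w.1)

/-- The dimension of the space of the cycles of all codimensions on `X` with rational coefficients
modulo numerical equivalence. -/
noncomputable def cycRk (ops : CycleOps 𝒱) (X : 𝒱.Obj) : ℕ :=
  ∑ j ∈ Finset.range (X.dim + 1), numRk ops X j

/-- The images of the class `c` on a power of `X`, in the cohomology of the product `pw X n` of `n + 1`
copies of `X`, under the correspondences given by the classes with the property `P`. -/
noncomputable def imagesP (P : Cls W) (X : 𝒱.Obj) (c : Σ m, W.H (pw X m)) (n : ℕ) :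
    Set (W.H (pw X n)) :=
  images (W.map (fst (pw X c.1) (pw X n))) (W.push (snd (pw X c.1) (pw X n)))
    (setP P ((pw X c.1).prod (pw X n))) c.2

/-- There are `r` classes with the property `P'` on powers of `X`, where `r + 1 ≤ N`, such that all
classes with the property `P'` on all powers of `X` are linear combinations of classes with the
property `P` and of images of these `r` classes under correspondences given by classes with the
property `P`. -/
def GeneratedP (P P' : Cls W) (X : 𝒱.Obj) (N : ℕ∞) : Prop :=
  ∃ (r : ℕ) (c : Fin r → Σ m, W.H (pw X m)), (r : ℕ∞) + 1 ≤ N ∧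
    (∀ i, (c i).2 ∈ setP P' (pw X (c i).1)) ∧
    ∀ n j z, P' (pw X n) j z → InSpan W.K (setP P (pw X n) ∪ ⋃ i, imagesP P X (c i) n) z

end Pool.Agent.Q57.DS
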