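import Pool.Agent.Q57.DS.Defs
import Pool.Agent.Q57.DR.Lift
import Pool.Agent.Q50.MO.CFin
import Pool.Agent.Y121.AHS.Conv

/-!
# Comparison of the definitions
-/

open CategoryTheory AlgebraicGeometry

open scoped TensorProduct

universe u

namespace Pool.Agent.Q57.DS

open Pool.Agent.H914 Pool.Agent.H914.VarClass Pool.Agent.H914.VarClass.Obj
  Pool.Agent.H914.WeilCohomology
open Pool.Agent.Y121.AHS
open Pool.Agent.Y133.Half (pw cycRank dimBy HasIndex GeneratedOver genOver imagesBy)
open Pool.Agent.Y133.Per (Base tm twist baseMap baseTr IsDeRham)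

section Alg

variable {K A B C : Type} [Field K] [Ring A] [Algebra K A] [Ring B] [Algebra K B]
  [Ring C] [Algebra K C] [Algebra K ℂ]

lemma degC_of_sub {gr : ℕ → Submodule K A} {i : ℕ} {x : Ext K ℂ A}
    (hx : x ∈ extSub K ℂ (gr i)) : (show Base K A from x) ∈ Pool.Agent.Q57.DR.degC gr i := by
  have h1 : ∀ y : ℂ ⊗[K] gr i, (show Base K A from (gr i).subtype.baseChange ℂ y) ∈
      Pool.Agent.Q57.DR.degC gr i := by
    intro y
    induction y using TensorProduct.induction_on with
    | zero => rw [map_zero]; exact Submodule.zero_mem _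
    | add a b ha hb => rw [map_add]; exact Submodule.add_mem _ ha hb
    | tmul r c =>
      rw [LinearMap.baseChange_tmul]
      exact Pool.Agent.Q57.DR.degC_tm (r := r) c.2
  have h2 : x ∈ LinearMap.range ((gr i).subtype.baseChange ℂ) := hx
  obtain ⟨y, rfl⟩ := h2
  exact h1 y

lemma tw_eq (S : Set (Ext K ℂ A)) (j : ℕ) (c : A) :
    InTw S j c ↔ twist j c ∈ (show Set (Base K A) from S) := by
  have h1 : extTw K ℂ per j (extEm K ℂ c) = (twist j c : Base K A) := by
    change per ^ j • ((1 : ℂ) ⊗ₜ[K] c) = (per ^ j) ⊗ₜ[K] c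
    rw [TensorProduct.smul_tmul', smul_eq_mul, mul_one]
  unfold InTw
  rw [h1]
  rfl

lemma hom_eq (f : A →ₐ[K] B) (x : Ext K ℂ A) :
    extHom K ℂ f x = baseMap f (show Base K A from x) := by
  refine Pool.Agent.Y133.Per.base_ind
    (p := fun x : Base K A => extHom K ℂ f (show Ext K ℂ A from x) = baseMap f x) ?_ ?_ ?_ x
  · rw [map_zero]
    exact map_zero (f.toLinearMap.baseChange ℂ)
  · intro r c
    rw [Pool.Agent.Y133.Per.baseMap_tm]
    exact LinearMap.baseChange_tmul _ _ _
  · intro a b ha hb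
    rw [map_add, ← ha, ← hb]
    exact map_add (f.toLinearMap.baseChange ℂ) _ _

end Alg

variable {k : Type u} [Field k] {𝒱 : VarClass k} {ops : CycleOps 𝒱} {T : HodgeTheory ops}
  {F : Subfield ℂ}

/-- The conversion of de Rham structures. -/
noncomputable def toGr (D : DRStr T F) : Pool.Agent.Q57.DR.GrDeRham T.W F where
  dR X := D.dR X
  form X :=
    { zero := (D.form X).zero
      add := (D.form X).add
      smul := (D.form X).smul
      scal := D.scal
      span := (D.form X).span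
      mul := (D.form X).mul
      cyc := by
        rintro j c ⟨z, hz, rfl⟩
        exact (tw_eq _ _ _).1 (D.cyc X j z hz)
      tr := (D.form X).tr }
  map {X Y} f := by
    intro a ha
    have h1 := D.map X Y f a ha
    have h2 : mapL f a = baseMap (T.W.map f) a := hom_eq (T.W.map f) a
    rwa [h2] at h1
  graded X := by
    intro a ha
    obtain ⟨f, hf, h⟩ := (D.form X).graded a ha
    exact ⟨f, fun i => ⟨(hf i).1, degC_of_sub (hf i).2⟩, h⟩

lemma isDRB_iff {D : DRStr T F} {X : 𝒱.Obj} {j : ℕ} {c : T.W.H X} : IsDRB D X j c ↔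
    Pool.Agent.Y133.Per.IsDRB (toGr D).toDeRham X j c :=
  and_congr_right fun _ => tw_eq _ _ _

lemma isDRB_eq (D : DRStr T F) : (fun X j c => IsDRB D X j c : Cls T.W) =
    fun X j c => Pool.Agent.Y133.Per.IsDRB (toGr D).toDeRham X j c := by
  funext X j c
  exact propext isDRB_iff

lemma mot_eq (W : WeilCohomology.{u, 0} ops) :
    (fun X j c => Pool.Agent.Q50.MO.Motivated W X j c : Cls W) =
      fun X j c => Pool.Agent.Q55.Motivated W X j c := by
  funext X j c
  exact propext Pool.Agent.Q50.MO.motivated_iff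

lemma dimP_eq {W : WeilCohomology.{u, 0} ops} (P : Cls W) (X : 𝒱.Obj) :
    dimP P X = dimBy W P X := rfl

lemma cycRk_eq (X : 𝒱.Obj) : cycRk ops X = cycRank ops X := rfl

lemma isAlg_iff {W : WeilCohomology.{u, 0} ops} {X : 𝒱.Obj} {j : ℕ} {c : W.H X} :
    IsAlg W X j c ↔ c ∈ spanCycles W X j := by
  have h1 : {x | ∃ z, X.IsCyc j z ∧ W.cl X z = x} =
      {c | ∃ p : ℕ, (p : ℤ) = j ∧ ∃ z, X.IsCyc p z ∧ W.cl X z = c} := by
    ext x
    constructor
    · rintro ⟨z, hz⟩
      exact ⟨j, rfl, z, hz⟩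
    · rintro ⟨p, hp, z, hz⟩
      obtain rfl : p = j := by exact_mod_cast hp
      exact ⟨z, hz⟩
  unfold IsAlg InSpan spanCycles
  rw [h1]

lemma index_iff {t s : ℕ → ℕ} {N : ℕ∞} : Index t s N ↔ HasIndex t s N := Iff.rfl

lemma generated_iff {W : WeilCohomology.{u, 0} ops} {P P' : Cls W} {X : 𝒱.Obj} {N : ℕ∞} :
    GeneratedP P P' X N ↔ GeneratedOver W P P' X N := by
  have h1 : ∀ (c : Σ m, W.H (pw X m)) (n : ℕ), imagesP P X c n = imagesBy W P X c n := by
    intro c n
    ext x
    constructor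
    · rintro ⟨z, ⟨j, hz⟩, h⟩
      exact ⟨j, z, hz, h⟩
    · rintro ⟨j, z, hz, h⟩
      exact ⟨z, ⟨j, hz⟩, h⟩
  unfold GeneratedP GeneratedOver
  simp only [h1]
  rfl

end Pool.Agent.Q57.DS
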