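import Pool.Agent.Q57.DS.Conv
import Pool.Agent.Q57.DR.Fin1
import Pool.Agent.Q57.DR.Fin2

/-!
# The results in terms of de Rham structures on Hodge theories
-/

open CategoryTheory AlgebraicGeometry

open scoped TensorProduct

universe u

namespace Pool.Agent.Q57.DS

open Pool.Agent.H914 Pool.Agent.H914.VarClass Pool.Agent.H914.VarClass.Obj
  Pool.Agent.H914.WeilCohomology
open Pool.Agent.Y121.AHS
open Pool.Agent.Y133.Half (pw cycRank dimBy HasIndex GeneratedOver)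
open Pool.Agent.Q50.MO (Motivated)

variable {k : Type u} [Field k] {𝒱 : VarClass k} {ops : CycleOps 𝒱}

section

variable {T : HodgeTheory ops} {F : Subfield ℂ} (D : DRStr T F) (X : 𝒱.Obj)

lemma drb_fun : IsDRB D = Pool.Agent.Y133.Per.IsDRB (toGr D).toDeRham := isDRB_eq D

lemma mot_fun : Motivated T.W = Pool.Agent.Q55.Motivated T.W := mot_eq T.W

theorem h_mot (Y : 𝒱.Obj) (j : ℕ) (c : T.W.H Y) (h : Motivated T.W Y j c) :
    IsHodge T Y j c ∧ IsDRB D Y j c := by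
  rw [mot_fun] at h
  rw [drb_fun]
  exact Pool.Agent.Q57.DR.f_mot T (toGr D) Y j c h

theorem h_tower [Nontrivial (T.W.H X)] :
    ∃ N M : ℕ∞, 1 ≤ N ∧ 1 ≤ M ∧
      Index (fun n => dimP (IsDRB D) (pw X n)) (fun n => dimP (Motivated T.W) (pw X n)) N ∧
      Index (fun n => dimP (Motivated T.W) (pw X n)) (fun n => cycRk ops (pw X n)) M ∧
      Index (fun n => dimP (IsDRB D) (pw X n)) (fun n => cycRk ops (pw X n)) (N * M) ∧
      (N = 1 ↔ ∀ n j c, IsDRB D (pw X n) j c → Motivated T.W (pw X n) j c) ∧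
      (M = 1 ↔ ∀ n j c, Motivated T.W (pw X n) j c → IsAlg T.W (pw X n) j c) ∧
      (N ≠ ⊤ → GeneratedP (Motivated T.W) (IsDRB D) X N) := by
  simp only [mot_fun, drb_fun, isAlg_iff, generated_iff]
  exact Pool.Agent.Q57.DR.f_tower T (toGr D) X

theorem h_half [Nontrivial (T.W.H X)] {N m : ℕ} (hN : 8 ≤ N) (hN2 : N % 2 = 0) (hm : m < N)
    {j : ℕ} {c : T.W.H (pw X m)} (hc : IsDRB D (pw X m) j c)
    (hc' : ¬ Motivated T.W (pw X m) j c) {ε : ℝ} (hε : 0 < ε) {n : ℕ}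
    (hn : (2 * (Module.finrank T.W.K (T.W.H X) : ℝ)) ^ (3 * N) / ε ^ 2 ≤ n + 1) :
    (dimP (Motivated T.W) (pw X n) : ℝ) ≤ (1 / 2 + ε) * dimP (IsDRB D) (pw X n) := by
  rw [mot_fun] at hc' ⊢
  rw [drb_fun] at hc ⊢
  exact Pool.Agent.Q57.DR.f_half T (toGr D) X hN hN2 hm hc hc' hε hn

/-- The class is a Hodge class and a de Rham-Betti class. -/
lemma hd_fun : (fun Y j c => IsHodge T Y j c ∧ IsDRB D Y j c : Cls T.W) =
    Pool.Agent.Q57.DR.IsHD T (toGr D).toDeRham := by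
  rw [drb_fun]
  rfl

end

end Pool.Agent.Q57.DS
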